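import Mathlib

/-!
# Separation dimension does not bound the number of plane directions

A graph has separation dimension `k` if its vertices can be ordered linearly in `k` ways such that
any two disjoint edges are separated by one of the orders. We show that the number of directions of
hyperplanes of `ℝ^d` that are needed to separate the disjoint edges of a straight-line embedding is
not bounded by a function of the separation dimension, for each fixed `d` (in particular `d = 3`).

The graphs are bipartite and layered: `2 a` layers of size `n`, `a = 2 d + 1`, half of them on either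
side, with a perfect matching between any two layers on different sides. Their separation dimension
is at most `a ^ 2 + 2 a`. If all of them had embeddings with `m` directions, one could describe such
a graph by the cells of its vertices with respect to `O(m s)` hyperplanes (there are only
`O((m s) ^ d)` nonempty cells), and for each matching by few exceptional edges and `O(m n / s)`
choices for every other edge; for large `s` and `n` there are more graphs than descriptions.
-/

set_option autoImplicit false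

namespace Pool.Agent.Results.MP_38bec9_co.NoPlaneBound

open Finset

/-- The family `F` of linear orders of the vertex set is pairwise suitable for `G`: for any two
disjoint edges `ab`, `cd` some order puts both `a, b` before both `c, d` or the other way round. -/
def PairwiseSuitable {V : Type} {k : ℕ} (G : SimpleGraph V) (F : Fin k → LinearOrder V) : Prop :=
  ∀ a b c d : V, G.Adj a b → G.Adj c d → a ≠ c → a ≠ d → b ≠ c → b ≠ d →
    ∃ i, ((F i).lt a c ∧ (F i).lt a d ∧ (F i).lt b c ∧ (F i).lt b d) ∨
      ((F i).lt c a ∧ (F i).lt c b ∧ (F i).lt d a ∧ (F i).lt d b)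

/-- The separation dimension: the least size of a pairwise suitable family. -/
noncomputable def sepDim {V : Type} (G : SimpleGraph V) : ℕ∞ :=
  ⨅ (k : ℕ) (_ : ∃ F : Fin k → LinearOrder V, PairwiseSuitable G F), (k : ℕ∞)

/-- `P` is a set of normal vectors of pairwise non-parallel hyperplanes. -/
def IsNormalSet {d : ℕ} (P : Finset (EuclideanSpace ℝ (Fin d))) : Prop :=
  (∀ ν ∈ P, ν ≠ 0) ∧ ∀ μ ∈ P, ∀ ν ∈ P, μ ≠ ν → ∀ c : ℝ, μ ≠ c • ν

/-- The hyperplane with normal vector `ν` and offset `c` has `A` and `B` in different open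
half-spaces. -/
def Separates {d : ℕ} (ν : EuclideanSpace ℝ (Fin d)) (c : ℝ) (A B : Set (EuclideanSpace ℝ (Fin d))) :
    Prop :=
  ((∀ p ∈ A, inner ℝ ν p < c) ∧ ∀ p ∈ B, c < inner ℝ ν p) ∨
    ((∀ p ∈ B, inner ℝ ν p < c) ∧ ∀ p ∈ A, c < inner ℝ ν p)

/-- `φ` is an injective placement of the vertices such that any two disjoint edges, drawn as
segments, are strictly separated by a hyperplane with a normal vector in `P`. -/
def IsSeparating {V : Type} {d : ℕ} (P : Finset (EuclideanSpace ℝ (Fin d))) (G : SimpleGraph V)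
    (φ : V → EuclideanSpace ℝ (Fin d)) : Prop :=
  Function.Injective φ ∧ ∀ u v x y : V, G.Adj u v → G.Adj x y → u ≠ x → u ≠ y → v ≠ x → v ≠ y →
    ∃ ν ∈ P, ∃ c : ℝ, Separates ν c (segment ℝ (φ u) (φ v)) (segment ℝ (φ x) (φ y))

/-- The least number of pairwise non-parallel hyperplanes in `ℝ^d` whose parallels separate the
disjoint edges of `G` in some placement of the vertices. -/
noncomputable def planeDim {V : Type} (d : ℕ) (G : SimpleGraph V) : ℕ∞ :=
  ⨅ (P : Finset (EuclideanSpace ℝ (Fin d))) (_ : IsNormalSet P ∧ ∃ φ, IsSeparating P G φ),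
    (P.card : ℕ∞)

/-! ### The layered graphs -/

/-- The vertices: `a` layers of size `n` on either side. -/
abbrev Vx (a n : ℕ) := (Fin a × Fin n) ⊕ (Fin a × Fin n)

/-- The layered graph with the perfect matching `σ (p, q)` between the left layer `p` and the right
layer `q`. -/
def layered {a n : ℕ} (σ : Fin a × Fin a → Equiv.Perm (Fin n)) : SimpleGraph (Vx a n) where
  Adj
    | .inl u, .inr v => σ (u.1, v.1) u.2 = v.2
    | .inr v, .inl u => σ (u.1, v.1) u.2 = v.2
    | _, _ => False
  symm := ⟨by rintro (u | u) (v | v) h <;> exact h⟩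
  loopless := ⟨by rintro (u | u) h <;> exact h.elim⟩

/-- Every edge of a layered graph, oriented from left to right. -/
theorem layered_cases {a n : ℕ} {σ : Fin a × Fin a → Equiv.Perm (Fin n)} {u v : Vx a n}
    (h : (layered σ).Adj u v) : ∃ p q i, (u = .inl (p, i) ∧ v = .inr (q, σ (p, q) i)) ∨
      (v = .inl (p, i) ∧ u = .inr (q, σ (p, q) i)) := by
  rcases u with ⟨p, i⟩ | ⟨q, j⟩ <;> rcases v with ⟨p', i'⟩ | ⟨q', j'⟩
  · exact h.elim
  · exact ⟨p, q', i, Or.inl ⟨rfl, by have h' : σ (p, q') i = j' := h; rw [h']⟩⟩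
  · exact ⟨p', q, i', Or.inr ⟨rfl, by have h' : σ (p', q) i' = j := h; rw [h']⟩⟩
  · exact h.elim

theorem layered_adj {a n : ℕ} (σ : Fin a × Fin a → Equiv.Perm (Fin n)) (p q : Fin a) (i : Fin n) :
    (layered σ).Adj (.inl (p, i)) (.inr (q, σ (p, q) i)) := rfl

/-- A linear order that refines a given block function. -/
theorem exists_order {V : Type} [Finite V] (β : V → ℕ) :
    ∃ O : LinearOrder V, ∀ u v, β u < β v → O.lt u v := by
  obtain ⟨n, ⟨e⟩⟩ := Finite.exists_equiv_fin V
  refine ⟨LinearOrder.lift' (fun v => (toLex (β v, e v) : ℕ ×ₗ Fin n)) ?_, ?_⟩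
  · intro u v h
    have := congrArg (fun z => (ofLex z).2) h
    exact e.injective this
  · intro u v h
    change (toLex (β u, e u) : ℕ ×ₗ Fin n) < toLex (β v, e v)
    exact Prod.Lex.toLex_lt_toLex.2 (Or.inl h)

/-- The block functions for the orders that separate the disjoint edges of a layered graph. -/
def block {a n : ℕ} (σ : Fin a × Fin a → Equiv.Perm (Fin n)) :
    (Fin a ⊕ Fin a) ⊕ (Fin a × Fin a) → Vx a n → ℕ
  | .inl (.inl _), .inl (_, i) => i.val
  | .inl (.inl p), .inr (q, j) => ((σ (p, q)).symm j).val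
  | .inl (.inr q), .inl (p, i) => (σ (p, q) i).val
  | .inl (.inr _), .inr (_, j) => j.val
  | .inr (p, _), .inl (p', _) => if p' = p then 0 else 1
  | .inr (_, q), .inr (q', _) => if q' = q then 0 else 1

/-- Some block function takes one value on one edge and another value on a disjoint edge. -/
theorem block_spec {a n : ℕ} (σ : Fin a × Fin a → Equiv.Perm (Fin n)) {u v x y : Vx a n}
    (huv : (layered σ).Adj u v) (hxy : (layered σ).Adj x y) (h1 : u ≠ x) (h2 : u ≠ y)
    (h3 : v ≠ x) (h4 : v ≠ y) :
    ∃ t, block σ t u = block σ t v ∧ block σ t x = block σ t y ∧ block σ t u ≠ block σ t x := by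
  obtain ⟨p, q, i, huv⟩ := layered_cases huv
  obtain ⟨p', q', i', hxy⟩ := layered_cases hxy
  -- the statement for oriented edges
  have key : (Sum.inl (p, i) : Vx a n) ≠ .inl (p', i') →
      (Sum.inr (q, σ (p, q) i) : Vx a n) ≠ .inr (q', σ (p', q') i') →
      ∃ t m m', m ≠ m' ∧ block σ t (.inl (p, i)) = m ∧ block σ t (.inr (q, σ (p, q) i)) = m ∧
        block σ t (.inl (p', i')) = m' ∧ block σ t (.inr (q', σ (p', q') i')) = m' := by
    intro hl hr
    by_cases hp : p = p'
    · subst hp
      have hi : i ≠ i' := fun h => hl (by rw [h])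
      refine ⟨.inl (.inl p), i.val, i'.val, fun h => hi (Fin.ext h), rfl, ?_, rfl, ?_⟩ <;>
        simp [block]
    · by_cases hq : q = q'
      · subst hq
        have hi : σ (p, q) i ≠ σ (p', q) i' := fun h => hr (by rw [h])
        exact ⟨.inl (.inr q), _, _, fun h => hi (Fin.ext h), rfl, rfl, rfl, rfl⟩
      · refine ⟨.inr (p, q), 0, 1, zero_ne_one, ?_, ?_, ?_, ?_⟩
        · simp [block]
        · simp [block]
        · simp [block, Ne.symm hp]
        · simp [block, Ne.symm hq]
  rcases huv with ⟨rfl, rfl⟩ | ⟨rfl, rfl⟩ <;> rcases hxy with ⟨rfl, rfl⟩ | ⟨rfl, rfl⟩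
  · obtain ⟨t, m, m', hm, e1, e2, e3, e4⟩ := key h1 h4
    exact ⟨t, by rw [e1, e2], by rw [e3, e4], by rw [e1, e3]; exact hm⟩
  · obtain ⟨t, m, m', hm, e1, e2, e3, e4⟩ := key h2 h3
    exact ⟨t, by rw [e1, e2], by rw [e3, e4], by rw [e1, e4]; exact hm⟩
  · obtain ⟨t, m, m', hm, e1, e2, e3, e4⟩ := key h3 h2
    exact ⟨t, by rw [e1, e2], by rw [e3, e4], by rw [e2, e3]; exact hm⟩
  · obtain ⟨t, m, m', hm, e1, e2, e3, e4⟩ := key h4 h1
    exact ⟨t, by rw [e1, e2], by rw [e3, e4], by rw [e2, e4]; exact hm⟩

/-- The separation dimension of the layered graphs is bounded. -/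
theorem sepDim_layered_le {a n : ℕ} (σ : Fin a × Fin a → Equiv.Perm (Fin n)) :
    sepDim (layered σ) ≤ ((a + a + a * a : ℕ) : ℕ∞) := by
  have hcard : Fintype.card ((Fin a ⊕ Fin a) ⊕ (Fin a × Fin a)) = a + a + a * a := by simp
  let e := Fintype.equivFinOfCardEq hcard
  choose O hO using fun t => exists_order (block σ t)
  refine iInf₂_le _ ⟨fun i => O (e.symm i), ?_⟩
  intro u v x y huv hxy h1 h2 h3 h4
  obtain ⟨t, e1, e2, e3⟩ := block_spec σ huv hxy h1 h2 h3 h4
  refine ⟨e t, ?_⟩
  beta_reduce
  rw [e.symm_apply_apply]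
  rcases lt_or_gt_of_ne e3 with h | h
  · left
    exact ⟨hO t _ _ h, hO t _ _ (by omega), hO t _ _ (by omega), hO t _ _ (by omega)⟩
  · right
    exact ⟨hO t _ _ h, hO t _ _ (by omega), hO t _ _ (by omega), hO t _ _ (by omega)⟩

/-! ### Ranks and cells -/

section Ranks

variable {V : Type} [Fintype V]

/-- The number of vertices strictly below `v`. -/
noncomputable def lowRank (f : V → ℝ) (v : V) : ℕ := by
  classical exact (univ.filter fun u => f u < f v).card

/-- The number of vertices not above `v`. -/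
noncomputable def highRank (f : V → ℝ) (v : V) : ℕ := by
  classical exact (univ.filter fun u => f u ≤ f v).card

theorem low_le_high (f : V → ℝ) (v : V) : lowRank f v ≤ highRank f v := by
  classical
  unfold lowRank highRank
  apply card_le_card
  intro u hu
  simp only [mem_filter, mem_univ, true_and] at hu ⊢
  exact hu.le

theorem high_le_low {f : V → ℝ} {u v : V} (h : f u < f v) : highRank f u ≤ lowRank f v := by
  classical
  unfold lowRank highRank
  apply card_le_card
  intro w hw
  simp only [mem_filter, mem_univ, true_and] at hw ⊢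
  exact hw.trans_lt h

theorem low_mono {f : V → ℝ} {u v : V} (h : f u ≤ f v) : lowRank f u ≤ lowRank f v := by
  classical
  unfold lowRank
  apply card_le_card
  intro w hw
  simp only [mem_filter, mem_univ, true_and] at hw ⊢
  exact hw.trans_le h

theorem high_mono {f : V → ℝ} {u v : V} (h : f u ≤ f v) : highRank f u ≤ highRank f v := by
  classical
  unfold highRank
  apply card_le_card
  intro w hw
  simp only [mem_filter, mem_univ, true_and] at hw ⊢
  exact hw.trans h

theorem low_lt (f : V → ℝ) (v : V) : lowRank f v < Fintype.card V := by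
  classical
  unfold lowRank
  rw [← card_univ]
  apply card_lt_card
  refine ⟨filter_subset _ _, fun h => ?_⟩
  have := h (mem_univ v)
  simp at this

/-- The half-spaces: direction, position and the kind of rank. -/
abbrev Hs (m s : ℕ) := Fin m × Fin (s + 1) × Bool

/-- The rank of the kind `b` with respect to the direction `t`. -/
noncomputable def rk {m : ℕ} (f : Fin m → V → ℝ) (t : Fin m) (b : Bool) (v : V) : ℕ :=
  if b then highRank (f t) v else lowRank (f t) v

theorem rk_mono {m : ℕ} {f : Fin m → V → ℝ} {t : Fin m} {b : Bool} {u v : V} (h : f t u ≤ f t v) :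
    rk f t b u ≤ rk f t b v := by
  unfold rk
  cases b
  · simpa using low_mono h
  · simpa using high_mono h

/-- The cell of a vertex: the half-spaces that contain it. -/
noncomputable def cell {m : ℕ} (f : Fin m → V → ℝ) (g s : ℕ) (v : V) : Finset (Hs m s) :=
  univ.filter fun x => x.2.1.val * g ≤ rk f x.1 x.2.2 v

theorem mem_cell {m : ℕ} {f : Fin m → V → ℝ} {g s : ℕ} {v : V} {t : Fin m} {j : Fin (s + 1)}
    {b : Bool} : (t, j, b) ∈ cell f g s v ↔ j.val * g ≤ rk f t b v := by
  simp [cell]

/-- The cells `C` and `D` lie in the same open gap of some direction. -/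
def Near {m s : ℕ} (C D : Finset (Hs m s)) : Prop :=
  ∃ t, ∀ j, ((t, j, true) ∈ C ↔ (t, j, false) ∈ C) ∧ ((t, j, false) ∈ D ↔ (t, j, false) ∈ C) ∧
    ((t, j, true) ∈ D ↔ (t, j, false) ∈ C)

instance {m s : ℕ} (C D : Finset (Hs m s)) : Decidable (Near C D) := by
  unfold Near; infer_instance

/-- Two edges `uv` and `xy` with ends in the same cells that are separated by a direction. -/
theorem near_of_sep {m : ℕ} {f : Fin m → V → ℝ} {g s : ℕ} {u v x y : V}
    (hux : cell f g s u = cell f g s x) (hvy : cell f g s v = cell f g s y) {t : Fin m} {c : ℝ}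
    (h : (f t u < c ∧ f t v < c ∧ c < f t x ∧ c < f t y) ∨
      (f t x < c ∧ f t y < c ∧ c < f t u ∧ c < f t v)) :
    Near (cell f g s u) (cell f g s v) := by
  -- the statement for the lower edge
  have key : ∀ u v x y : V, cell f g s u = cell f g s x → cell f g s v = cell f g s y →
      f t u < f t x → f t u < f t y → f t v < f t x → f t v < f t y →
      Near (cell f g s u) (cell f g s v) := by
    intro u v x y hux hvy h1 h2 h3 h4
    refine ⟨t, fun j => ?_⟩
    have a1 : (t, j, true) ∈ cell f g s u ↔ j.val * g ≤ highRank (f t) u := by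
      rw [mem_cell]; simp [rk]
    have a2 : (t, j, false) ∈ cell f g s u ↔ j.val * g ≤ lowRank (f t) u := by
      rw [mem_cell]; simp [rk]
    have a3 : (t, j, true) ∈ cell f g s v ↔ j.val * g ≤ highRank (f t) v := by
      rw [mem_cell]; simp [rk]
    have a4 : (t, j, false) ∈ cell f g s v ↔ j.val * g ≤ lowRank (f t) v := by
      rw [mem_cell]; simp [rk]
    have a5 : j.val * g ≤ lowRank (f t) x ↔ j.val * g ≤ lowRank (f t) u := by
      rw [← a2, hux, mem_cell]; simp [rk]
    have a6 : j.val * g ≤ lowRank (f t) y ↔ j.val * g ≤ lowRank (f t) v := by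
      rw [← a4, hvy, mem_cell]; simp [rk]
    have b1 := high_le_low h1
    have b2 := high_le_low h2
    have b3 := high_le_low h3
    have b4 := high_le_low h4
    have b5 := low_le_high (f t) u
    have b6 := low_le_high (f t) v
    rw [a1, a2, a3, a4]
    have c1 : j.val * g ≤ highRank (f t) u → j.val * g ≤ lowRank (f t) u :=
      fun h => a5.1 (h.trans b1)
    have c2 : j.val * g ≤ highRank (f t) u → j.val * g ≤ lowRank (f t) v :=
      fun h => a6.1 (h.trans b2)
    have c3 : j.val * g ≤ highRank (f t) v → j.val * g ≤ lowRank (f t) u :=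
      fun h => a5.1 (h.trans b3)
    refine ⟨⟨c1, fun h => h.trans b5⟩, ⟨fun h => c3 (h.trans b6), fun h => c2 (h.trans b5)⟩,
      ⟨c3, fun h => (c2 (h.trans b5)).trans b6⟩⟩
  rcases h with ⟨h1, h2, h3, h4⟩ | ⟨h1, h2, h3, h4⟩
  · exact key u v x y hux hvy (h1.trans h3) (h1.trans h4) (h2.trans h3) (h2.trans h4)
  · rw [hux, hvy]
    exact key x y u v hux.symm hvy.symm (h1.trans h3) (h1.trans h4) (h2.trans h3) (h2.trans h4)

/-- A cell has few near vertices. -/
theorem card_near_le {m : ℕ} (f : Fin m → V → ℝ) {g s : ℕ} (hg : 0 < g)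
    (hV : Fintype.card V ≤ s * g) (C : Finset (Hs m s)) :
    (univ.filter fun w => Near C (cell f g s w)).card ≤ m * g := by
  classical
  -- for one direction
  have key : ∀ t : Fin m, (univ.filter fun w => ∀ j, ((t, j, false) ∈ cell f g s w ↔
      (t, j, false) ∈ C) ∧ ((t, j, true) ∈ cell f g s w ↔ (t, j, false) ∈ C)).card ≤ g := by
    intro t
    set W := univ.filter fun w => ∀ j, ((t, j, false) ∈ cell f g s w ↔
      (t, j, false) ∈ C) ∧ ((t, j, true) ∈ cell f g s w ↔ (t, j, false) ∈ C) with hW
    rcases W.eq_empty_or_nonempty with hE | hE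
    · rw [hE]; simp
    obtain ⟨w1, hw1, hmin⟩ := W.exists_min_image (f t) hE
    obtain ⟨w2, hw2, hmax⟩ := W.exists_max_image (f t) hE
    have hsub : W ⊆ (univ.filter fun u => f t u ≤ f t w2) \ (univ.filter fun u => f t u < f t w1) := by
      intro w hw
      simp only [mem_sdiff, mem_filter, mem_univ, true_and, not_lt]
      exact ⟨hmax w hw, hmin w hw⟩
    have hc1 := card_le_card hsub
    have hsub2 : (univ.filter fun u => f t u < f t w1) ⊆ (univ.filter fun u => f t u ≤ f t w2) := by
      intro w hw
      simp only [mem_filter, mem_univ, true_and] at hw ⊢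
      exact hw.le.trans (hmin w2 hw2)
    rw [card_sdiff_of_subset hsub2] at hc1
    have hlow : (univ.filter fun u => f t u < f t w1).card = lowRank (f t) w1 := by
      unfold lowRank; congr
    have hhigh : (univ.filter fun u => f t u ≤ f t w2).card = highRank (f t) w2 := by
      unfold highRank; congr
    rw [hlow, hhigh] at hc1
    -- the position
    set j0 := lowRank (f t) w1 / g with hj0
    have hlt := low_lt (f t) w1
    have hj0s : j0 < s := by
      rw [hj0, Nat.div_lt_iff_lt_mul hg]; omega
    have e1 : j0 * g ≤ lowRank (f t) w1 := Nat.div_mul_le_self _ _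
    have e2 : lowRank (f t) w1 < (j0 + 1) * g := by
      rw [← Nat.div_lt_iff_lt_mul hg]; omega
    simp only [hW, mem_filter, mem_univ, true_and] at hw1 hw2
    have f1 := (hw1 ⟨j0 + 1, by omega⟩).1
    have f2 := (hw2 ⟨j0 + 1, by omega⟩).2
    have f3 : (t, (⟨j0 + 1, by omega⟩ : Fin (s + 1)), false) ∉ cell f g s w1 := by
      rw [mem_cell]; simp only [rk]; simpa using e2
    have f4 : (t, (⟨j0 + 1, by omega⟩ : Fin (s + 1)), true) ∉ cell f g s w2 := by
      rw [f2, ← f1]; exact f3
    rw [mem_cell] at f4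
    simp only [rk, if_true, not_le] at f4
    have : (j0 + 1) * g = j0 * g + g := by ring
    omega
  calc (univ.filter fun w => Near C (cell f g s w)).card
      ≤ (univ.biUnion fun t : Fin m => univ.filter fun w => ∀ j, ((t, j, false) ∈ cell f g s w ↔
        (t, j, false) ∈ C) ∧ ((t, j, true) ∈ cell f g s w ↔ (t, j, false) ∈ C)).card := by
        apply card_le_card
        intro w hw
        simp only [mem_filter, mem_univ, true_and] at hw
        obtain ⟨t, ht⟩ := hw
        simp only [mem_biUnion, mem_filter, mem_univ, true_and]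
        exact ⟨t, fun j => (ht j).2⟩
    _ ≤ ∑ t : Fin m, (univ.filter fun w => ∀ j, ((t, j, false) ∈ cell f g s w ↔
        (t, j, false) ∈ C) ∧ ((t, j, true) ∈ cell f g s w ↔ (t, j, false) ∈ C)).card :=
        card_biUnion_le
    _ ≤ ∑ _t : Fin m, g := sum_le_sum fun t _ => key t
    _ = m * g := by simp

end Ranks

/-! ### The number of nonempty cells -/

theorem sum_choose_le (M d : ℕ) : ∑ k ∈ range (d + 1), M.choose k ≤ (M + 1) ^ d := by
  induction d with
  | zero => simp
  | succ d ih =>
    rw [sum_range_succ]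
    have h1 : M.choose (d + 1) ≤ M ^ (d + 1) := Nat.choose_le_pow _ _
    have h2 : M ^ d ≤ (M + 1) ^ d := Nat.pow_le_pow_left (by omega) d
    calc ∑ k ∈ range (d + 1), M.choose k + M.choose (d + 1)
        ≤ (M + 1) ^ d + M ^ d * M := by rw [← pow_succ]; exact add_le_add ih h1
      _ ≤ (M + 1) ^ d + (M + 1) ^ d * M := by gcongr
      _ = (M + 1) ^ (d + 1) := by ring

theorem card_cells_le {V : Type} [Fintype V] {d m : ℕ} (ν : Fin m → EuclideanSpace ℝ (Fin d))
    (φ : V → EuclideanSpace ℝ (Fin d)) (g s : ℕ) :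
    (univ.image (cell (fun t v => inner ℝ (ν t) (φ v)) g s)).card ≤
      (m * ((s + 1) * 2) + 1) ^ d := by
  classical
  set f : Fin m → V → ℝ := fun t v => inner ℝ (ν t) (φ v) with hf
  set A : Finset (Finset (Hs m s)) := univ.image (cell f g s) with hA
  have hvc : A.vcDim ≤ d := by
    unfold Finset.vcDim
    apply Finset.sup_le
    intro X hX
    rw [Finset.mem_shatterer] at hX
    by_contra hcon
    have hdep : ¬ LinearIndependent ℝ (fun x : X => ν x.1.1) := by
      intro hli
      have := hli.fintype_card_le_finrank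
      simp at this
      omega
    rw [Fintype.not_linearIndependent_iff] at hdep
    obtain ⟨c, hc, x0, hx0⟩ := hdep
    let cc : Hs m s → ℝ := fun x => if h : x ∈ X then c ⟨x, h⟩ else 0
    have hcc : ∀ x : X, cc x.1 = c x := fun x => by simp [cc]
    obtain ⟨S1, hS1, hXS1⟩ := hX (filter_subset (fun x => 0 < cc x) X)
    obtain ⟨S2, hS2, hXS2⟩ := hX (filter_subset (fun x => ¬ 0 < cc x) X)
    obtain ⟨u, -, rfl⟩ := mem_image.1 hS1
    obtain ⟨v, -, rfl⟩ := mem_image.1 hS2
    have hu : ∀ x ∈ X, (x ∈ cell f g s u ↔ 0 < cc x) := by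
      intro x hx
      have := Finset.ext_iff.1 hXS1 x
      simp only [mem_inter, mem_filter, hx, true_and] at this
      exact this
    have hv : ∀ x ∈ X, (x ∈ cell f g s v ↔ ¬ 0 < cc x) := by
      intro x hx
      have := Finset.ext_iff.1 hXS2 x
      simp only [mem_inter, mem_filter, hx, true_and] at this
      exact this
    have hlt : ∀ x : Hs m s, ∀ a b : V, x ∈ cell f g s a → x ∉ cell f g s b →
        f x.1 b < f x.1 a := by
      intro x a b ha hb
      obtain ⟨t, j, k⟩ := x
      rw [mem_cell] at ha hb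
      by_contra hle
      exact hb (ha.trans (rk_mono (not_lt.1 hle)))
    have hterm : ∀ x : X, c x ≠ 0 → 0 < c x * (f x.1.1 u - f x.1.1 v) := by
      intro x hx
      rcases lt_or_gt_of_ne hx with h | h
      · have h' : ¬ 0 < cc x.1 := by rw [hcc]; exact not_lt.2 h.le
        have h1 : x.1 ∉ cell f g s u := fun h'' => h' ((hu x.1 x.2).1 h'')
        have h2 : x.1 ∈ cell f g s v := (hv x.1 x.2).2 h'
        have := hlt x.1 v u h2 h1
        exact mul_pos_of_neg_of_neg h (by linarith)
      · have h' : 0 < cc x.1 := by rw [hcc]; exact h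
        have h1 : x.1 ∈ cell f g s u := (hu x.1 x.2).2 h'
        have h2 : x.1 ∉ cell f g s v := fun h'' => (hv x.1 x.2).1 h'' h'
        have := hlt x.1 u v h1 h2
        exact mul_pos h (by linarith)
    have hsum : ∑ x : X, c x * (f x.1.1 u - f x.1.1 v) = 0 := by
      have h1 : inner ℝ (∑ x : X, c x • ν x.1.1) (φ u - φ v) = (0 : ℝ) := by
        rw [hc, inner_zero_left]
      rw [sum_inner] at h1
      rw [← h1]
      apply sum_congr rfl
      intro x _
      rw [real_inner_smul_left, inner_sub_right]
    have hpos : 0 < ∑ x : X, c x * (f x.1.1 u - f x.1.1 v) := by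
      apply sum_pos'
      · intro x _
        by_cases hx : c x = 0
        · rw [hx, zero_mul]
        · exact (hterm x hx).le
      · exact ⟨x0, mem_univ _, hterm x0 hx0⟩
    linarith
  calc A.card ≤ A.shatterer.card := Finset.card_le_card_shatterer A
    _ ≤ ∑ k ∈ Iic A.vcDim, (Fintype.card (Hs m s)).choose k := Finset.card_shatterer_le_sum_vcDim
    _ ≤ ∑ k ∈ range (d + 1), (Fintype.card (Hs m s)).choose k := by
        apply sum_le_sum_of_subset
        intro k hk
        rw [mem_Iic] at hk
        rw [mem_range]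
        omega
    _ ≤ (Fintype.card (Hs m s) + 1) ^ d := sum_choose_le _ _
    _ = (m * ((s + 1) * 2) + 1) ^ d := by simp [Fintype.card_prod]

/-! ### Counting -/

/-- The permutations compatible with an assignment of cells: edges with ends in the same two cells
join near vertices. -/
def Good {n m s : ℕ} (c1 c2 : Fin n → Finset (Hs m s)) : Finset (Equiv.Perm (Fin n)) :=
  univ.filter fun τ => ∀ i i', i ≠ i' → c1 i = c1 i' → c2 (τ i) = c2 (τ i') →
    Near (c1 i) (c2 (τ i))

theorem card_good_le {n m s D K : ℕ} (c1 c2 : Fin n → Finset (Hs m s)) (hD : 1 ≤ D) (hn : 1 ≤ n)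
    (h1 : (univ.image c1).card ≤ K) (h2 : (univ.image c2).card ≤ K)
    (hnear : ∀ i, (univ.filter fun j => Near (c1 i) (c2 j)).card ≤ D) :
    (Good c1 c2).card ≤ 2 ^ n * (n ^ (K * K) * D ^ n) := by
  classical
  let T : Finset (Fin n) → Fin n → Finset (Fin n) := fun X i =>
    if i ∈ X then univ else univ.filter fun j => Near (c1 i) (c2 j)
  have hT : ∀ X : Finset (Fin n), X.card ≤ K * K →
      (univ.filter fun τ : Equiv.Perm (Fin n) => ∀ i, τ i ∈ T X i).card ≤ n ^ (K * K) * D ^ n := by
    intro X hX
    calc (univ.filter fun τ : Equiv.Perm (Fin n) => ∀ i, τ i ∈ T X i).card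
        ≤ (Fintype.piFinset (T X)).card := by
          apply card_le_card_of_injOn (fun τ : Equiv.Perm (Fin n) => (τ : Fin n → Fin n))
          · intro τ hτ
            simp only [coe_filter, mem_univ, true_and, Set.mem_ofPred_eq] at hτ
            simp only [mem_coe, Fintype.mem_piFinset]
            exact hτ
          · intro τ _ τ' _ h
            exact DFunLike.coe_injective h
      _ = ∏ i, (T X i).card := Fintype.card_piFinset _
      _ ≤ ∏ i, ((if i ∈ X then n else 1) * D) := by
          apply prod_le_prod'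
          intro i _
          by_cases hi : i ∈ X
          · simp only [T, hi, if_true, card_univ, Fintype.card_fin]
            exact Nat.le_mul_of_pos_right n hD
          · simp only [T, hi, if_false, one_mul]
            exact hnear i
      _ = n ^ X.card * D ^ n := by
          rw [prod_mul_distrib, prod_const, card_univ, Fintype.card_fin, prod_ite_mem]
          simp
      _ ≤ n ^ (K * K) * D ^ n := by
          apply Nat.mul_le_mul_right
          exact Nat.pow_le_pow_right hn hX
  calc (Good c1 c2).card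
      ≤ ((univ.filter fun X : Finset (Fin n) => X.card ≤ K * K).biUnion fun X =>
        univ.filter fun τ : Equiv.Perm (Fin n) => ∀ i, τ i ∈ T X i).card := by
        apply card_le_card
        intro τ hτ
        simp only [Good, mem_filter, mem_univ, true_and] at hτ
        simp only [mem_biUnion, mem_filter, mem_univ, true_and]
        refine ⟨univ.filter fun i => ¬ Near (c1 i) (c2 (τ i)), ?_, ?_⟩
        · calc (univ.filter fun i => ¬ Near (c1 i) (c2 (τ i))).card
              ≤ ((univ.image c1) ×ˢ (univ.image c2)).card := by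
                apply card_le_card_of_injOn (fun i => (c1 i, c2 (τ i)))
                · intro i _
                  simp
                · intro i hi i' hi' h
                  simp only [coe_filter, mem_univ, true_and, Set.mem_ofPred_eq] at hi
                  simp only [Prod.mk.injEq] at h
                  by_contra hne
                  exact hi (hτ i i' hne h.1 h.2)
            _ ≤ K * K := by
                rw [card_product]
                exact Nat.mul_le_mul h1 h2
        · intro i
          by_cases hi : Near (c1 i) (c2 (τ i))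
          · simp only [T]
            split_ifs
            · exact mem_univ _
            · simpa using hi
          · simp [T, hi]
    _ ≤ ∑ X ∈ univ.filter fun X : Finset (Fin n) => X.card ≤ K * K,
        (univ.filter fun τ : Equiv.Perm (Fin n) => ∀ i, τ i ∈ T X i).card := card_biUnion_le
    _ ≤ ∑ X ∈ univ.filter fun X : Finset (Fin n) => X.card ≤ K * K, n ^ (K * K) * D ^ n := by
        apply sum_le_sum
        intro X hX
        exact hT X (mem_filter.1 hX).2
    _ ≤ 2 ^ n * (n ^ (K * K) * D ^ n) := by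
        rw [sum_const, smul_eq_mul]
        apply Nat.mul_le_mul_right
        calc (univ.filter fun X : Finset (Fin n) => X.card ≤ K * K).card
            ≤ (univ : Finset (Finset (Fin n))).card := card_filter_le _ _
          _ = 2 ^ n := by simp

/-- The functions with few values. -/
theorem card_few_values {V Γ : Type} [Fintype V] [DecidableEq V] [Fintype Γ] [DecidableEq Γ]
    [Nonempty Γ] (K : ℕ) :
    (univ.filter fun c : V → Γ => (univ.image c).card ≤ K).card ≤
      Fintype.card Γ ^ K * K ^ Fintype.card V := by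
  classical
  calc (univ.filter fun c : V → Γ => (univ.image c).card ≤ K).card
      ≤ (univ.image fun x : (Fin K → Γ) × (V → Fin K) => x.1 ∘ x.2).card := by
        apply card_le_card
        intro c hc
        simp only [mem_filter, mem_univ, true_and] at hc
        simp only [mem_image, mem_univ, true_and]
        let e := (univ.image c).equivFin
        refine ⟨(fun i => if h : i.val < (univ.image c).card then (e.symm ⟨i.val, h⟩).1
          else Classical.arbitrary Γ,
          fun v => ⟨(e ⟨c v, mem_image_of_mem c (mem_univ v)⟩).val,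
            (e ⟨c v, mem_image_of_mem c (mem_univ v)⟩).isLt.trans_le hc⟩), ?_⟩
        funext v
        simp
    _ ≤ (univ : Finset ((Fin K → Γ) × (V → Fin K))).card := card_image_le
    _ = Fintype.card Γ ^ K * K ^ Fintype.card V := by
        simp [Fintype.card_prod]

/-- The counting inequality. -/
theorem main_count {d m s h : ℕ} (hm : 1 ≤ m) (hs : 1 ≤ s) (hh : 1 ≤ h)
    (hall : ∀ σ : Fin (2 * d + 1) × Fin (2 * d + 1) → Equiv.Perm (Fin (s * h)),
      ∃ (ν : Fin m → EuclideanSpace ℝ (Fin d))
        (φ : Vx (2 * d + 1) (s * h) → EuclideanSpace ℝ (Fin d)),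
        ∀ u v x y, (layered σ).Adj u v → (layered σ).Adj x y → u ≠ x → u ≠ y → v ≠ x → v ≠ y →
          ∃ t c, (inner ℝ (ν t) (φ u) < c ∧ inner ℝ (ν t) (φ v) < c ∧
              c < inner ℝ (ν t) (φ x) ∧ c < inner ℝ (ν t) (φ y)) ∨
            (inner ℝ (ν t) (φ x) < c ∧ inner ℝ (ν t) (φ y) < c ∧
              c < inner ℝ (ν t) (φ u) ∧ c < inner ℝ (ν t) (φ v))) :
    (s * h).factorial ^ ((2 * d + 1) * (2 * d + 1)) ≤
      (2 ^ (m * ((s + 1) * 2))) ^ ((m * ((s + 1) * 2) + 1) ^ d) *
        ((m * ((s + 1) * 2) + 1) ^ d) ^ (2 * (2 * d + 1) * (s * h)) *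
      (2 ^ (s * h) * ((s * h) ^ ((m * ((s + 1) * 2) + 1) ^ d * (m * ((s + 1) * 2) + 1) ^ d) *
        (m * (2 * (2 * d + 1) * h)) ^ (s * h))) ^ ((2 * d + 1) * (2 * d + 1)) := by
  classical
  set a := 2 * d + 1 with ha
  set n := s * h with hn
  set K := (m * ((s + 1) * 2) + 1) ^ d with hK
  set g := 2 * a * h with hg
  have hn1 : 1 ≤ n := Nat.mul_pos hs hh
  have hg1 : 0 < g := by positivity
  have hcardV : Fintype.card (Vx a n) ≤ s * g := by
    simp only [Vx, Fintype.card_sum, Fintype.card_prod, Fintype.card_fin]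
    apply le_of_eq
    rw [hg, hn]; ring
  -- the descriptions
  let CC : Finset (Vx a n → Finset (Hs m s)) := univ.filter fun c => (univ.image c).card ≤ K
  let CC' : Finset (Vx a n → Finset (Hs m s)) := CC.filter fun c =>
    ∀ C, (univ.filter fun w => Near C (c w)).card ≤ m * g
  let GG : (Vx a n → Finset (Hs m s)) → Fin a × Fin a → Finset (Equiv.Perm (Fin n)) :=
    fun c pq => Good (fun i => c (.inl (pq.1, i))) (fun j => c (.inr (pq.2, j)))
  have hcover : (univ : Finset (Fin a × Fin a → Equiv.Perm (Fin n))) ⊆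
      CC'.biUnion fun c => Fintype.piFinset (GG c) := by
    intro σ _
    obtain ⟨ν, φ, hsep⟩ := hall σ
    set f : Fin m → Vx a n → ℝ := fun t v => inner ℝ (ν t) (φ v) with hf
    rw [mem_biUnion]
    refine ⟨cell f g s, ?_, ?_⟩
    · simp only [CC', CC, mem_filter, mem_univ, true_and]
      exact ⟨card_cells_le ν φ g s, fun C => card_near_le f hg1 hcardV C⟩
    · rw [Fintype.mem_piFinset]
      rintro ⟨p, q⟩
      simp only [GG, Good, mem_filter, mem_univ, true_and]
      intro i i' hii h1 h2
      have hne1 : (Sum.inl (p, i) : Vx a n) ≠ .inl (p, i') := by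
        intro h'; simp at h'; exact hii h'
      have hne2 : (Sum.inr (q, σ (p, q) i) : Vx a n) ≠ .inr (q, σ (p, q) i') := by
        intro h'; simp at h'; exact hii h'
      obtain ⟨t, c, hc⟩ := hsep _ _ _ _ (layered_adj σ p q i) (layered_adj σ p q i') hne1
        (by simp) (by simp) hne2
      exact near_of_sep h1 h2 hc
  have hB : ∀ c ∈ CC', (Fintype.piFinset (GG c)).card ≤
      (2 ^ n * (n ^ (K * K) * (m * g) ^ n)) ^ (a * a) := by
    intro c hc
    simp only [CC', CC, mem_filter, mem_univ, true_and] at hc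
    rw [Fintype.card_piFinset]
    calc ∏ pq, (GG c pq).card ≤ ∏ _pq : Fin a × Fin a, (2 ^ n * (n ^ (K * K) * (m * g) ^ n)) := by
          apply prod_le_prod'
          rintro ⟨p, q⟩ _
          apply card_good_le _ _ (Nat.mul_pos hm hg1) hn1
          · refine (card_le_card ?_).trans hc.1
            intro x hx
            obtain ⟨i, -, rfl⟩ := mem_image.1 hx
            exact mem_image_of_mem _ (mem_univ _)
          · refine (card_le_card ?_).trans hc.1
            intro x hx
            obtain ⟨i, -, rfl⟩ := mem_image.1 hx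
            exact mem_image_of_mem _ (mem_univ _)
          · intro i
            refine le_trans ?_ (hc.2 (c (.inl (p, i))))
            apply card_le_card_of_injOn (fun j => (Sum.inr (q, j) : Vx a n))
            · intro j hj
              simpa using hj
            · intro j _ j' _ hjj
              simpa using hjj
      _ = (2 ^ n * (n ^ (K * K) * (m * g) ^ n)) ^ (a * a) := by
          rw [prod_const, card_univ, Fintype.card_prod, Fintype.card_fin]
  have hCC : CC'.card ≤ (2 ^ (m * ((s + 1) * 2))) ^ K * K ^ (2 * a * n) := by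
    calc CC'.card ≤ CC.card := card_filter_le _ _
      _ ≤ Fintype.card (Finset (Hs m s)) ^ K * K ^ Fintype.card (Vx a n) := card_few_values K
      _ = (2 ^ (m * ((s + 1) * 2))) ^ K * K ^ (2 * a * n) := by
          have h1 : Fintype.card (Finset (Hs m s)) = 2 ^ (m * ((s + 1) * 2)) := by
            rw [Fintype.card_finset]; simp [Fintype.card_prod]
          have h2 : Fintype.card (Vx a n) = 2 * a * n := by
            simp only [Vx, Fintype.card_sum, Fintype.card_prod, Fintype.card_fin]; ring
          rw [h1, h2]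
  calc n.factorial ^ (a * a) = (univ : Finset (Fin a × Fin a → Equiv.Perm (Fin n))).card := by
        rw [card_univ, Fintype.card_fun, Fintype.card_perm, Fintype.card_prod, Fintype.card_fin,
          Fintype.card_fin]
    _ ≤ (CC'.biUnion fun c => Fintype.piFinset (GG c)).card := card_le_card hcover
    _ ≤ ∑ c ∈ CC', (Fintype.piFinset (GG c)).card := card_biUnion_le
    _ ≤ ∑ _c ∈ CC', (2 ^ n * (n ^ (K * K) * (m * g) ^ n)) ^ (a * a) := sum_le_sum hB
    _ = CC'.card * (2 ^ n * (n ^ (K * K) * (m * g) ^ n)) ^ (a * a) := by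
        rw [sum_const, smul_eq_mul]
    _ ≤ _ := Nat.mul_le_mul_right _ hCC

/-! ### Numbers -/

theorem pow_self_le (n : ℕ) : n ^ n ≤ 3 ^ n * n.factorial := by
  have h1 := Real.pow_div_factorial_le_exp (x := (n : ℝ)) (Nat.cast_nonneg n) n
  have h2 : Real.exp n ≤ 3 ^ n := by
    have : Real.exp n = (Real.exp 1) ^ n := by
      rw [← Real.exp_nat_mul]; simp
    rw [this]
    apply pow_le_pow_left₀ (Real.exp_pos _).le
    have := Real.exp_one_lt_d9
    linarith
  have h3 : (0 : ℝ) < n.factorial := by exact_mod_cast n.factorial_pos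
  rw [div_le_iff₀ h3] at h1
  have h4 : ((n : ℝ)) ^ n ≤ 3 ^ n * n.factorial :=
    h1.trans (mul_le_mul_of_nonneg_right h2 h3.le)
  exact_mod_cast h4

theorem eventually_lt (G B : ℕ) : ∃ n0 : ℕ, ∀ n ≥ n0, G * n ^ B < 2 ^ n := by
  have h := tendsto_pow_const_div_const_pow_of_one_lt B (r := (2 : ℝ)) (by norm_num)
  have h1 : (0 : ℝ) < 1 / (G + 1) := by positivity
  have h2 := (h.eventually_lt_const h1)
  obtain ⟨n0, hn0⟩ := Filter.eventually_atTop.1 h2
  refine ⟨n0, fun n hn => ?_⟩
  have h3 := hn0 n hn
  rw [div_lt_div_iff₀ (by positivity) (by positivity)] at h3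
  have h4 : ((n ^ B * (G + 1) : ℕ) : ℝ) < ((1 * 2 ^ n : ℕ) : ℝ) := by
    push_cast; exact h3
  have h5 : n ^ B * (G + 1) < 1 * 2 ^ n := by exact_mod_cast h4
  nlinarith [Nat.zero_le (n ^ B)]

/-- The counting inequality fails for suitable parameters. -/
theorem exists_numbers (d m : ℕ) (hm : 1 ≤ m) : ∃ s h : ℕ, 1 ≤ s ∧ 1 ≤ h ∧
    (2 ^ (m * ((s + 1) * 2))) ^ ((m * ((s + 1) * 2) + 1) ^ d) *
        ((m * ((s + 1) * 2) + 1) ^ d) ^ (2 * (2 * d + 1) * (s * h)) *
      (2 ^ (s * h) * ((s * h) ^ ((m * ((s + 1) * 2) + 1) ^ d * (m * ((s + 1) * 2) + 1) ^ d) *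
        (m * (2 * (2 * d + 1) * h)) ^ (s * h))) ^ ((2 * d + 1) * (2 * d + 1)) <
      (s * h).factorial ^ ((2 * d + 1) * (2 * d + 1)) := by
  set a := 2 * d + 1 with ha
  set Q := (5 * m) ^ (d * (2 * a)) * (12 * a * m) ^ (a * a) with hQ
  have hQ1 : 1 ≤ Q := Nat.succ_le_of_lt (by positivity)
  set s := 2 * Q with hs
  set K := (m * ((s + 1) * 2) + 1) ^ d with hK
  set G := (2 ^ (m * ((s + 1) * 2))) ^ K with hG
  obtain ⟨n0, hn0⟩ := eventually_lt G (K * K * (a * a))
  refine ⟨s, n0 + 1, by omega, by omega, ?_⟩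
  set h := n0 + 1 with hh
  have hs1 : 1 ≤ s := by omega
  have hn : n0 ≤ s * h := by nlinarith
  have hlt := hn0 (s * h) hn
  set n := s * h with hnn
  by_contra hcon
  rw [not_lt] at hcon
  have hK' : K ≤ (5 * m * s) ^ d := by
    rw [hK]
    apply Nat.pow_le_pow_left
    nlinarith [Nat.mul_le_mul hm hs1]
  -- the common factor
  set X := s ^ (d * (2 * a * n)) * Q ^ n * (h ^ n) ^ (a * a) with hX
  have hXpos : 0 < X := by positivity
  have hL : X * 2 ^ n ≤ (n ^ n) ^ (a * a) := by
    have e1 : (n ^ n) ^ (a * a) = (s ^ n) ^ (a * a) * (h ^ n) ^ (a * a) := by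
      rw [← mul_pow, ← mul_pow]
    have e2 : (s ^ n) ^ (a * a) = s ^ (d * (2 * a * n)) * s ^ (a * n) := by
      rw [← pow_mul, ← pow_add]
      congr 1
      rw [ha]; ring
    have e3 : s ^ n ≤ s ^ (a * n) := Nat.pow_le_pow_right hs1 (by nlinarith)
    have e4 : s ^ n = 2 ^ n * Q ^ n := by rw [hs, mul_pow]
    calc X * 2 ^ n = s ^ (d * (2 * a * n)) * (2 ^ n * Q ^ n) * (h ^ n) ^ (a * a) := by
          rw [hX]; ring
      _ ≤ s ^ (d * (2 * a * n)) * s ^ (a * n) * (h ^ n) ^ (a * a) := by
          apply Nat.mul_le_mul_right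
          apply Nat.mul_le_mul_left
          rw [← e4]; exact e3
      _ = (n ^ n) ^ (a * a) := by rw [e1, e2]
  have hR : (n ^ n) ^ (a * a) ≤ X * (G * n ^ (K * K * (a * a))) := by
    calc (n ^ n) ^ (a * a) ≤ (3 ^ n * n.factorial) ^ (a * a) :=
          Nat.pow_le_pow_left (pow_self_le n) _
      _ = (3 ^ n) ^ (a * a) * n.factorial ^ (a * a) := by rw [mul_pow]
      _ ≤ (3 ^ n) ^ (a * a) * (G * K ^ (2 * a * n) *
          (2 ^ n * (n ^ (K * K) * (m * (2 * a * h)) ^ n)) ^ (a * a)) :=
          Nat.mul_le_mul_left _ hcon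
      _ ≤ (3 ^ n) ^ (a * a) * (G * ((5 * m * s) ^ d) ^ (2 * a * n) *
          (2 ^ n * (n ^ (K * K) * (m * (2 * a * h)) ^ n)) ^ (a * a)) := by
          gcongr
      _ = X * (G * n ^ (K * K * (a * a))) := by
          have e1 : ((5 * m * s) ^ d) ^ (2 * a * n) =
              ((5 * m) ^ (d * (2 * a))) ^ n * s ^ (d * (2 * a * n)) := by
            rw [← pow_mul, mul_pow, ← pow_mul]
            congr 2
            ring
          have e2 : (3 ^ n) ^ (a * a) * (2 ^ n * (n ^ (K * K) * (m * (2 * a * h)) ^ n)) ^ (a * a) =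
              ((12 * a * m) ^ (a * a)) ^ n * (h ^ n) ^ (a * a) * n ^ (K * K * (a * a)) := by
            have e3 : (m * (2 * a * h)) ^ n = (2 * a * m) ^ n * h ^ n := by
              rw [← mul_pow]; congr 1; ring
            rw [e3, ← mul_pow, pow_right_comm (12 * a * m) (a * a) n, pow_mul n (K * K) (a * a),
              ← mul_pow, ← mul_pow]
            have e4 : (12 * a * m) ^ n = 3 ^ n * 2 ^ n * (2 * a * m) ^ n := by
              rw [← mul_pow, ← mul_pow]; congr 1; ring
            rw [e4]; ring_nf
          calc (3 ^ n) ^ (a * a) * (G * ((5 * m * s) ^ d) ^ (2 * a * n) *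
              (2 ^ n * (n ^ (K * K) * (m * (2 * a * h)) ^ n)) ^ (a * a))
              = G * ((5 * m * s) ^ d) ^ (2 * a * n) * ((3 ^ n) ^ (a * a) *
                (2 ^ n * (n ^ (K * K) * (m * (2 * a * h)) ^ n)) ^ (a * a)) := by ring
            _ = G * (((5 * m) ^ (d * (2 * a))) ^ n * s ^ (d * (2 * a * n))) *
                (((12 * a * m) ^ (a * a)) ^ n * (h ^ n) ^ (a * a) * n ^ (K * K * (a * a))) := by
                rw [e1, e2]
            _ = X * (G * n ^ (K * K * (a * a))) := by
                rw [hX, hQ, mul_pow ((5 * m) ^ (d * (2 * a)))]; ring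
  have := Nat.le_of_mul_le_mul_left (hL.trans hR) hXpos
  omega

/-- For every dimension `d` there are graphs with bounded separation dimension that need arbitrarily
many directions of hyperplanes in `ℝ^d`. In particular, for `d = 3`, the least number `π₃` of pairwise
non-parallel planes is not bounded by a function of the separation dimension `π`. -/
theorem result : ∀ d : ℕ, ∃ k : ℕ, ∀ m : ℕ, ∃ (V : Type) (_ : Fintype V) (G : SimpleGraph V),
    sepDim G ≤ k ∧ (m : ℕ∞) < planeDim d G := by
  classical
  intro d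
  refine ⟨(2 * d + 1) + (2 * d + 1) + (2 * d + 1) * (2 * d + 1), fun m => ?_⟩
  obtain ⟨s, h, hs, hh, hlt⟩ := exists_numbers d (m + 1) (by omega)
  by_contra hcon
  apply absurd hlt
  rw [not_lt]
  apply main_count (by omega) hs hh
  intro σ
  have h1 : ¬ (m : ℕ∞) < planeDim d (layered σ) := fun h' =>
    hcon ⟨_, inferInstance, layered σ, sepDim_layered_le σ, h'⟩
  obtain ⟨P, hPc, φ, hφ⟩ : ∃ P : Finset (EuclideanSpace ℝ (Fin d)), P.card ≤ m ∧
      ∃ φ, IsSeparating P (layered σ) φ := by
    by_contra hno
    apply h1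
    have h2 : ((m + 1 : ℕ) : ℕ∞) ≤ planeDim d (layered σ) := by
      unfold planeDim
      apply le_iInf₂
      rintro P ⟨-, hP⟩
      have : m + 1 ≤ P.card := by
        by_contra hlt'
        exact hno ⟨P, by omega, hP⟩
      exact_mod_cast this
    exact lt_of_lt_of_le (by exact_mod_cast Nat.lt_succ_self m) h2
  let ν : Fin (m + 1) → EuclideanSpace ℝ (Fin d) := fun i =>
    if h : i.val < P.card then (P.equivFin.symm ⟨i.val, h⟩).1 else 0
  have hν : ∀ x ∈ P, ∃ t, ν t = x := by
    intro x hx
    refine ⟨⟨(P.equivFin ⟨x, hx⟩).val, by have := (P.equivFin ⟨x, hx⟩).isLt; omega⟩, ?_⟩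
    simp [ν]
  refine ⟨ν, φ, ?_⟩
  intro u v x y huv hxy h1 h2 h3 h4
  obtain ⟨x0, hx0, c, hc⟩ := hφ.2 u v x y huv hxy h1 h2 h3 h4
  obtain ⟨t, rfl⟩ := hν x0 hx0
  refine ⟨t, c, ?_⟩
  rcases hc with ⟨ha, hb⟩ | ⟨ha, hb⟩
  · exact Or.inl ⟨ha _ (left_mem_segment ℝ _ _), ha _ (right_mem_segment ℝ _ _),
      hb _ (left_mem_segment ℝ _ _), hb _ (right_mem_segment ℝ _ _)⟩
  · exact Or.inr ⟨ha _ (left_mem_segment ℝ _ _), ha _ (right_mem_segment ℝ _ _),
      hb _ (left_mem_segment ℝ _ _), hb _ (right_mem_segment ℝ _ _)⟩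

end Pool.Agent.Results.MP_38bec9_co.NoPlaneBound
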